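import Mathlib

/-!
# Heights of the divisors of `X ^ (2 q ^ b) - 1`

Every divisor of `X ^ (2 q ^ b) - 1` is, up to sign, `A(X) * ∏_{i < b} P_i(X ^ (q ^ i))` with
`P_i ∈ {1, U, V, U V}`, `U = ∑_{d < q} X ^ d`, `V = ∑_{d < q} (-X) ^ d`,
`A ∈ {1, X - 1, X + 1, X² - 1}`. A polynomial `P` with at most one nonzero coefficient, `1` or `-1`,
in every residue class modulo `q` does not increase the largest sum of the absolute values of the
coefficients in a residue class.
-/

namespace Pool.Agent.J6H90.Height

open Polynomial Finset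

/-- The truncated sum of the absolute values of the coefficients of `f` in the class of `r`
modulo `M`. -/
noncomputable def cls (N : ℕ) (f : ℤ[X]) (M r : ℕ) : ℤ :=
  ∑ n ∈ range N, if n % M = r then |f.coeff n| else 0

/-- At most one nonzero coefficient in every residue class modulo `q`, and all of them are
`0` or `±1`. -/
def Sparse (q : ℕ) (P : ℤ[X]) : Prop :=
  (∀ d, |P.coeff d| ≤ 1) ∧ ∀ d d', P.coeff d ≠ 0 → P.coeff d' ≠ 0 → d % q = d' % q → d = d'

lemma inner_le {q M : ℕ} (hM : 0 < M) {P : ℤ[X]} (hP : Sparse q P) (N i r : ℕ) :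
    (∑ j ∈ range N, if (i + j) % (q * M) = r then |(expand ℤ M P).coeff j| else 0)
      ≤ if i % M = r % M then 1 else 0 := by
  have key : ∀ j, (if (i + j) % (q * M) = r then |(expand ℤ M P).coeff j| else 0) ≠ 0 →
      (i + j) % (q * M) = r ∧ M ∣ j ∧ P.coeff (j / M) ≠ 0 := by
    intro j hj
    by_cases h1 : (i + j) % (q * M) = r
    · rw [if_pos h1, coeff_expand hM] at hj
      by_cases h2 : M ∣ j
      · rw [if_pos h2] at hj
        exact ⟨h1, h2, by simpa using hj⟩
      · rw [if_neg h2] at hj; simp at hj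
    · rw [if_neg h1] at hj; exact absurd rfl hj
  by_cases hall : ∀ j ∈ range N,
      (if (i + j) % (q * M) = r then |(expand ℤ M P).coeff j| else 0) = 0
  · rw [Finset.sum_eq_zero hall]; split_ifs <;> norm_num
  · push Not at hall
    obtain ⟨j0, hj0, hne⟩ := hall
    obtain ⟨h1, h2, h3⟩ := key j0 hne
    have hcong : i % M = r % M := by
      rw [← h1, Nat.mod_mul_left_mod]
      obtain ⟨c, rfl⟩ := h2
      simp
    rw [if_pos hcong, Finset.sum_eq_single j0]
    · rw [if_pos h1, coeff_expand hM, if_pos h2]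
      exact hP.1 _
    · intro j _ hjne
      by_contra hc
      obtain ⟨g1, g2, g3⟩ := key j hc
      apply hjne
      have e1 : (i + j) ≡ (i + j0) [MOD (q * M)] := by
        unfold Nat.ModEq; rw [g1, h1]
      have e2 : j ≡ j0 [MOD (q * M)] := Nat.ModEq.add_left_cancel' i e1
      obtain ⟨c, rfl⟩ := g2
      obtain ⟨c0, rfl⟩ := h2
      have e3 : c ≡ c0 [MOD q] := by
        have : M * c ≡ M * c0 [MOD (M * q)] := by rwa [mul_comm q M] at e2
        exact Nat.ModEq.mul_left_cancel' hM.ne' this
      rw [Nat.mul_div_cancel_left _ hM] at g3 h3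
      rw [hP.2 c c0 g3 h3 e3]
    · intro hn; exact absurd hj0 hn

lemma step {q M : ℕ} (hM : 0 < M) {P : ℤ[X]} (hP : Sparse q P) (f : ℤ[X]) (B : ℤ)
    (hf : ∀ N r, cls N f M r ≤ B) (N r : ℕ) :
    cls N (f * expand ℤ M P) (q * M) r ≤ B := by
  refine le_trans ?_ (hf N (r % M))
  unfold cls
  calc ∑ n ∈ range N, (if n % (q * M) = r then |(f * expand ℤ M P).coeff n| else 0)
      ≤ ∑ n ∈ range N, ∑ p ∈ antidiagonal n,
          (if (p.1 + p.2) % (q * M) = r then |f.coeff p.1| * |(expand ℤ M P).coeff p.2| else 0) := by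
        apply Finset.sum_le_sum
        intro n _
        have hp : ∀ p ∈ antidiagonal n,
          (if (p.1 + p.2) % (q * M) = r then |f.coeff p.1| * |(expand ℤ M P).coeff p.2| else 0)
          = if n % (q * M) = r then |f.coeff p.1| * |(expand ℤ M P).coeff p.2| else 0 := by
          intro p hp
          rw [HasAntidiagonal.mem_antidiagonal.1 hp]
        rw [Finset.sum_congr rfl hp]
        split_ifs with h
        · rw [coeff_mul]
          refine (Finset.abs_sum_le_sum_abs _ _).trans (le_of_eq ?_)
          exact Finset.sum_congr rfl fun p _ => abs_mul _ _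
        · simp
    _ ≤ ∑ i ∈ range N, ∑ j ∈ range N,
          (if (i + j) % (q * M) = r then |f.coeff i| * |(expand ℤ M P).coeff j| else 0) := by
        rw [← Finset.sum_product', Finset.sum_sigma']
        have hinj : Set.InjOn (fun x : (Σ _ : ℕ, ℕ × ℕ) => x.2)
            ((range N).sigma fun n => antidiagonal n : Finset (Σ _ : ℕ, ℕ × ℕ)) := by
          rintro ⟨n, p⟩ h1 ⟨m, p'⟩ h2 h
          simp only [Finset.coe_sigma, Set.mem_sigma_iff, Finset.mem_coe, HasAntidiagonal.mem_antidiagonal] at h1 h2
          simp only at h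
          subst h
          rw [← h1.2, ← h2.2]
        rw [← Finset.sum_image (f := fun p : ℕ × ℕ =>
          (if (p.1 + p.2) % (q * M) = r then |f.coeff p.1| * |(expand ℤ M P).coeff p.2| else 0)) hinj]
        apply Finset.sum_le_sum_of_subset_of_nonneg
        · intro p hp
          simp only [mem_image, mem_sigma, HasAntidiagonal.mem_antidiagonal, mem_range] at hp
          obtain ⟨⟨n, p'⟩, ⟨hn, h⟩, rfl⟩ := hp
          simp only at hn h
          simp only [mem_product, mem_range]
          omega
        · intro p _ _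
          split_ifs
          · positivity
          · exact le_rfl
    _ = ∑ i ∈ range N, |f.coeff i| * ∑ j ∈ range N,
          (if (i + j) % (q * M) = r then |(expand ℤ M P).coeff j| else 0) := by
        apply Finset.sum_congr rfl
        intro i _
        rw [Finset.mul_sum]
        apply Finset.sum_congr rfl
        intro j _
        split_ifs <;> simp
    _ ≤ ∑ i ∈ range N, |f.coeff i| * (if i % M = r % M then 1 else 0) := by
        apply Finset.sum_le_sum
        intro i _
        exact mul_le_mul_of_nonneg_left (inner_le hM hP N i r) (abs_nonneg _)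
    _ = ∑ n ∈ range N, (if n % M = r % M then |f.coeff n| else 0) := by
        apply Finset.sum_congr rfl
        intro i _
        split_ifs <;> simp

lemma iter {q : ℕ} (hq : 0 < q) (P : ℕ → ℤ[X]) (hP : ∀ i, Sparse q (P i)) (A : ℤ[X]) (B : ℤ)
    (hA : ∀ N, cls N A 1 0 ≤ B) (hB : 0 ≤ B) (k : ℕ) :
    ∀ N r, cls N (A * ∏ i ∈ range k, expand ℤ (q ^ i) (P i)) (q ^ k) r ≤ B := by
  induction k with
  | zero =>
    intro N r
    simp only [range_zero, prod_empty, mul_one, pow_zero]
    by_cases hr : r = 0
    · subst hr; exact hA N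
    · unfold cls
      refine le_trans (le_of_eq ?_) hB
      apply Finset.sum_eq_zero
      intro n _
      rw [Nat.mod_one, if_neg (Ne.symm hr)]
  | succ k ih =>
    intro N r
    rw [prod_range_succ, ← mul_assoc, pow_succ, mul_comm (q ^ k) q]
    exact step (pow_pos hq k) (hP k) _ B ih N r

lemma coeff_le_of_cls {f : ℤ[X]} {M : ℕ} {B : ℤ} (h : ∀ N r, cls N f M r ≤ B) (n : ℕ) :
    |f.coeff n| ≤ B := by
  refine le_trans ?_ (h (n + 1) (n % M))
  unfold cls
  have := Finset.single_le_sum (f := fun m => if m % M = n % M then |f.coeff m| else 0)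
    (s := range (n + 1)) (fun i _ => by split_ifs <;> positivity) (self_mem_range_succ n)
  simpa using this

/-- If `f` divides `Q * p` with `p` prime then `f ∣ Q` or `f = g * p` with `g ∣ Q`. -/
lemma dvd_split {f Q p : ℤ[X]} (hp : Prime p) (h : f ∣ Q * p) :
    f ∣ Q ∨ ∃ g, f = g * p ∧ g ∣ Q := by
  obtain ⟨g, hg⟩ := h
  have : p ∣ f * g := ⟨Q, by rw [← hg]; ring⟩
  rcases hp.dvd_or_dvd this with h1 | h1
  · obtain ⟨c, rfl⟩ := h1
    right
    refine ⟨c, by ring, g, ?_⟩
    have : p * Q = p * (c * g) := by rw [mul_comm p Q, hg]; ring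
    exact mul_left_cancel₀ hp.ne_zero this
  · obtain ⟨c, rfl⟩ := h1
    left
    refine ⟨c, ?_⟩
    have : p * Q = p * (f * c) := by rw [mul_comm p Q, hg]; ring
    exact mul_left_cancel₀ hp.ne_zero this

lemma divs (a b : ℕ → ℤ[X]) (ha : ∀ i, Prime (a i)) (hb : ∀ i, Prime (b i)) (m : ℕ) :
    ∀ f : ℤ[X], f ∣ ∏ i ∈ range m, (a i * b i) →
      ∃ P : ℕ → ℤ[X], (∀ i, P i = 1 ∨ P i = a i ∨ P i = b i ∨ P i = a i * b i) ∧
        Associated f (∏ i ∈ range m, P i) := by
  induction m with
  | zero =>
    intro f hf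
    refine ⟨fun _ => 1, fun _ => Or.inl rfl, ?_⟩
    simp only [range_zero, prod_empty] at hf ⊢
    exact associated_one_iff_isUnit.2 (isUnit_of_dvd_one hf)
  | succ m ih =>
    intro f hf
    have key : ∀ (g c : ℤ[X]), (c = 1 ∨ c = a m ∨ c = b m ∨ c = a m * b m) → f = g * c →
        g ∣ ∏ i ∈ range m, (a i * b i) → ∃ P : ℕ → ℤ[X],
          (∀ i, P i = 1 ∨ P i = a i ∨ P i = b i ∨ P i = a i * b i) ∧
          Associated f (∏ i ∈ range (m + 1), P i) := by
      intro g c hc hfg hg
      obtain ⟨P, hP, hass⟩ := ih g hg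
      refine ⟨fun i => if i = m then c else P i, ?_, ?_⟩
      · intro i
        by_cases him : i = m
        · subst him; simpa using hc
        · simpa [him] using hP i
      · rw [prod_range_succ, hfg]
        have h1 : ∏ i ∈ range m, (fun i => if i = m then c else P i) i = ∏ i ∈ range m, P i := by
          apply Finset.prod_congr rfl
          intro i hi
          have : i ≠ m := (mem_range.1 hi).ne
          simp [this]
        rw [h1]
        simp only [if_true]
        exact hass.mul_right c
    rw [prod_range_succ, ← mul_assoc] at hf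
    rcases dvd_split (hb m) hf with h1 | ⟨g, rfl, h1⟩
    · rcases dvd_split (ha m) h1 with h2 | ⟨g, rfl, h2⟩
      · exact key f 1 (Or.inl rfl) (by simp) h2
      · exact key g (a m) (Or.inr (Or.inl rfl)) rfl h2
    · rcases dvd_split (ha m) h1 with h2 | ⟨g', rfl, h2⟩
      · exact key g (b m) (Or.inr (Or.inr (Or.inl rfl))) rfl h2
      · exact key g' (a m * b m) (Or.inr (Or.inr (Or.inr rfl))) (by ring) h2

end Pool.Agent.J6H90.Height
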