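import Pool.Agent.J6H90.Height.Core

/-!
# The divisors of `X ^ (2 q ^ b) - 1`
-/

namespace Pool.Agent.J6H90.Height

open Polynomial Finset

/-- `1 + X + ⋯ + X ^ (q - 1)`. -/
noncomputable def U (q : ℕ) : ℤ[X] := ∑ d ∈ range q, X ^ d

/-- `1 - X + ⋯ + X ^ (q - 1)` for odd `q`. -/
noncomputable def V (q : ℕ) : ℤ[X] := ∑ d ∈ range q, (-X) ^ d

lemma coeff_U (q n : ℕ) : (U q).coeff n = if n < q then 1 else 0 := by
  unfold U
  rw [finsetSum_coeff]
  simp only [coeff_X_pow]
  by_cases h : n < q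
  · rw [if_pos h, Finset.sum_eq_single n]
    · simp
    · intro b _ hb; rw [if_neg (Ne.symm hb)]
    · intro hn; exact absurd (mem_range.2 h) hn
  · rw [if_neg h]
    apply Finset.sum_eq_zero
    intro b hb
    rw [if_neg]
    rintro rfl
    exact h (mem_range.1 hb)

lemma coeff_V (q n : ℕ) : (V q).coeff n = if n < q then (-1) ^ n else 0 := by
  unfold V
  rw [finsetSum_coeff]
  have h0 : ∀ b, ((-X : ℤ[X]) ^ b).coeff n = if n = b then (-1) ^ n else 0 := by
    intro b
    rw [neg_pow, show ((-1 : ℤ[X]) ^ b) = C ((-1) ^ b) by simp, coeff_C_mul, coeff_X_pow]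
    split_ifs with h
    · subst h; simp
    · simp
  simp only [h0]
  by_cases h : n < q
  · rw [if_pos h, Finset.sum_eq_single n]
    · simp
    · intro b _ hb; rw [if_neg (Ne.symm hb)]
    · intro hn; exact absurd (mem_range.2 h) hn
  · rw [if_neg h]
    apply Finset.sum_eq_zero
    intro b hb
    rw [if_neg]
    rintro rfl
    exact h (mem_range.1 hb)

lemma UV_eq {q : ℕ} (hq : Odd q) : U q * V q = expand ℤ 2 (U q) := by
  have h1 : U q * (X - 1) = X ^ q - 1 := geom_sum_mul X q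
  have h2 : V q * (-X - 1) = (-X) ^ q - 1 := geom_sum_mul (-X) q
  have h3 : expand ℤ 2 (U q) * (X ^ 2 - 1) = X ^ (2 * q) - 1 := by
    have := congrArg (expand ℤ 2) h1
    simpa [pow_mul] using this
  have hne : (X ^ 2 - 1 : ℤ[X]) ≠ 0 := by
    have := X_pow_sub_C_ne_zero (R := ℤ) (n := 2) (by norm_num) 1
    simpa using this
  apply mul_right_cancel₀ hne
  rw [h3]
  rw [hq.neg_pow] at h2
  have : U q * V q * (X ^ 2 - 1) = (U q * (X - 1)) * (-(V q * (-X - 1))) := by ring
  rw [this, h1, h2]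
  ring

lemma sparse_one (q : ℕ) : Sparse q 1 := by
  refine ⟨fun d => ?_, fun d d' h h' _ => ?_⟩
  · rw [coeff_one]; split_ifs <;> norm_num
  · rw [coeff_one] at h h'
    simp only [ne_eq, ite_eq_right_iff, one_ne_zero, imp_false, not_not] at h h'
    rw [h, h']

lemma sparse_U (q : ℕ) : Sparse q (U q) := by
  refine ⟨fun d => ?_, fun d d' h h' e => ?_⟩
  · rw [coeff_U]; split_ifs <;> norm_num
  · rw [coeff_U] at h h'
    simp only [ne_eq, ite_eq_right_iff, one_ne_zero, imp_false, not_not] at h h'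
    rwa [Nat.mod_eq_of_lt h, Nat.mod_eq_of_lt h'] at e

lemma sparse_V (q : ℕ) : Sparse q (V q) := by
  refine ⟨fun d => ?_, fun d d' h h' e => ?_⟩
  · rw [coeff_V]; split_ifs
    · rw [abs_pow]; simp
    · norm_num
  · rw [coeff_V] at h h'
    have g : d < q := by by_contra hc; rw [if_neg hc] at h; exact h rfl
    have g' : d' < q := by by_contra hc; rw [if_neg hc] at h'; exact h' rfl
    rwa [Nat.mod_eq_of_lt g, Nat.mod_eq_of_lt g'] at e

lemma sparse_UV {q : ℕ} (hq : Odd q) : Sparse q (U q * V q) := by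
  rw [UV_eq hq]
  have h2 : (0 : ℕ) < 2 := by norm_num
  refine ⟨fun d => ?_, fun d d' h h' e => ?_⟩
  · rw [coeff_expand h2]
    split_ifs
    · exact (sparse_U q).1 _
    · norm_num
  · rw [coeff_expand h2] at h h'
    have g : 2 ∣ d := by by_contra hc; rw [if_neg hc] at h; exact h rfl
    have g' : 2 ∣ d' := by by_contra hc; rw [if_neg hc] at h'; exact h' rfl
    rw [if_pos g] at h
    rw [if_pos g'] at h'
    obtain ⟨c, rfl⟩ := g
    obtain ⟨c', rfl⟩ := g'
    rw [Nat.mul_div_cancel_left _ h2] at h h'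
    have e2 : c ≡ c' [MOD q] := by
      have : 2 * c ≡ 2 * c' [MOD q] := e
      exact Nat.ModEq.cancel_left_of_coprime (by
        rw [Nat.gcd_comm]
        exact (Nat.coprime_two_left.2 hq)) this
    rw [(sparse_U q).2 c c' h h' e2]

/-- The factors of `X ^ (q ^ b) - 1`. -/
noncomputable def aa (q : ℕ) (i : ℕ) : ℤ[X] := cyclotomic (q ^ i) ℤ

/-- The factors of `X ^ (q ^ b) + 1`, up to sign. -/
noncomputable def bb (q : ℕ) (i : ℕ) : ℤ[X] := algEquivAevalNegX (R := ℤ) (cyclotomic (q ^ i) ℤ)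

lemma algEquivAevalNegX_X : algEquivAevalNegX (R := ℤ) X = -X := by
  simp [algEquivAevalNegX]

lemma aa_succ {q : ℕ} (hq : q.Prime) (i : ℕ) : aa q (i + 1) = expand ℤ (q ^ i) (U q) := by
  haveI := Fact.mk hq
  unfold aa U
  rw [cyclotomic_prime_pow_eq_geom_sum hq]
  simp

lemma bb_succ {q : ℕ} (hq : q.Prime) (hodd : Odd q) (i : ℕ) :
    bb q (i + 1) = expand ℤ (q ^ i) (V q) := by
  haveI := Fact.mk hq
  unfold bb V
  rw [cyclotomic_prime_pow_eq_geom_sum hq]
  simp only [map_sum, map_pow, algEquivAevalNegX_X, map_neg, expand_X]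
  rw [(hodd.pow).neg_pow]

lemma aa_zero (q : ℕ) : aa q 0 = X - 1 := by simp [aa]

lemma bb_zero (q : ℕ) : bb q 0 = -X - 1 := by
  simp [bb, algEquivAevalNegX_X]

lemma prime_aa {q : ℕ} (hq : q.Prime) (i : ℕ) : Prime (aa q i) :=
  (cyclotomic.irreducible (pow_pos hq.pos i)).prime

lemma prime_bb {q : ℕ} (hq : q.Prime) (i : ℕ) : Prime (bb q i) := by
  have h := prime_aa hq i
  have := (MulEquiv.prime_iff (algEquivAevalNegX (R := ℤ) : ℤ[X] ≃ₐ[ℤ] ℤ[X]) (p := aa q i)).2 h
  exact this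

lemma prod_aa {q : ℕ} (hq : q.Prime) (b : ℕ) :
    ∏ i ∈ range (b + 1), aa q i = X ^ (q ^ b) - 1 := by
  rw [← prod_cyclotomic_eq_X_pow_sub_one (pow_pos hq.pos b) ℤ, Nat.divisors_prime_pow hq,
    Finset.prod_map]
  rfl

lemma prod_bb {q : ℕ} (hq : q.Prime) (hodd : Odd q) (b : ℕ) :
    ∏ i ∈ range (b + 1), bb q i = -(X ^ (q ^ b) + 1) := by
  have h := congrArg (algEquivAevalNegX (R := ℤ)) (prod_aa hq b)
  rw [map_prod] at h
  have : ∏ i ∈ range (b + 1), bb q i
      = ∏ i ∈ range (b + 1), algEquivAevalNegX (R := ℤ) (aa q i) := rfl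
  rw [this, h]
  simp only [map_sub, map_pow, algEquivAevalNegX_X, map_one]
  rw [(hodd.pow).neg_pow]
  ring

lemma cls_le_of_support {A : ℤ[X]} {B : ℤ} (h : ∀ n, 3 ≤ n → A.coeff n = 0)
    (h3 : |A.coeff 0| + |A.coeff 1| + |A.coeff 2| ≤ B) (N : ℕ) : cls N A 1 0 ≤ B := by
  unfold cls
  have h1 : ∑ n ∈ range N, (if n % 1 = 0 then |A.coeff n| else 0)
      ≤ ∑ n ∈ range (max N 3), |A.coeff n| := by
    calc _ = ∑ n ∈ range N, |A.coeff n| := by
          apply Finset.sum_congr rfl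
          intro n _
          rw [Nat.mod_one, if_pos rfl]
      _ ≤ _ := by
          apply Finset.sum_le_sum_of_subset_of_nonneg
          · intro x hx
            simp only [mem_range] at hx ⊢
            omega
          · intro _ _ _; positivity
  refine h1.trans (le_trans (le_of_eq ?_) h3)
  obtain ⟨k, hk⟩ : ∃ k, max N 3 = 3 + k := ⟨max N 3 - 3, by omega⟩
  rw [hk, Finset.sum_range_add]
  have : ∑ x ∈ range k, |A.coeff (3 + x)| = 0 := by
    apply Finset.sum_eq_zero
    intro x _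
    rw [h _ (by omega)]; rfl
  rw [this, add_zero, Finset.sum_range_succ, Finset.sum_range_succ, Finset.sum_range_one]

/-- The coefficients of every divisor of `X ^ (2 q ^ b) - 1` are at most `2`. -/
theorem coeff_le_two {q : ℕ} (hq : q.Prime) (hodd : Odd q) (b : ℕ) (f : ℤ[X])
    (hf : f ∣ X ^ (2 * q ^ b) - 1) (n : ℕ) : |f.coeff n| ≤ 2 := by
  have hprod : ∏ i ∈ range (b + 1), (aa q i * bb q i) = -(X ^ (2 * q ^ b) - 1) := by
    rw [Finset.prod_mul_distrib, prod_aa hq, prod_bb hq hodd]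
    ring
  have hf' : f ∣ ∏ i ∈ range (b + 1), (aa q i * bb q i) := by
    rw [hprod]; exact (dvd_neg).2 hf
  obtain ⟨P, hP, hass⟩ := divs (aa q) (bb q) (prime_aa hq) (prime_bb hq) (b + 1) f hf'
  -- the factors with positive index
  have hex : ∀ i, ∃ R : ℤ[X], Sparse q R ∧ P (i + 1) = expand ℤ (q ^ i) R := by
    intro i
    rcases hP (i + 1) with h | h | h | h
    · exact ⟨1, sparse_one q, by rw [h]; simp⟩
    · exact ⟨U q, sparse_U q, by rw [h, aa_succ hq]⟩
    · exact ⟨V q, sparse_V q, by rw [h, bb_succ hq hodd]⟩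
    · exact ⟨U q * V q, sparse_UV hodd, by rw [h, aa_succ hq, bb_succ hq hodd, map_mul]⟩
  choose R hR hPR using hex
  have hA : ∀ N, cls N (P 0) 1 0 ≤ 2 := by
    rcases hP 0 with h | h | h | h
    · rw [h]
      apply cls_le_of_support
      · intro n hn; rw [coeff_one, if_neg (by omega)]
      · simp [coeff_one]
    · rw [h, aa_zero]
      apply cls_le_of_support
      · intro n hn
        rw [coeff_sub, coeff_X, coeff_one, if_neg (by omega), if_neg (by omega)]; simp
      · simp [coeff_one, coeff_X]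
    · rw [h, bb_zero]
      apply cls_le_of_support
      · intro n hn
        rw [coeff_sub, coeff_neg, coeff_X, coeff_one, if_neg (by omega), if_neg (by omega)]; simp
      · simp [coeff_one, coeff_X]
    · rw [h, aa_zero, bb_zero, show ((X - 1) * (-X - 1) : ℤ[X]) = 1 - X ^ 2 by ring]
      apply cls_le_of_support
      · intro n hn
        rw [coeff_sub, coeff_X_pow, coeff_one, if_neg (by omega), if_neg (by omega)]; simp
      · simp [coeff_one, coeff_X_pow]
  have hmain := iter hq.pos R hR (P 0) 2 hA (by norm_num) b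
  have hfin : (P 0 * ∏ i ∈ range b, expand ℤ (q ^ i) (R i)) = ∏ i ∈ range (b + 1), P i := by
    rw [Finset.prod_range_succ', mul_comm]
    congr 1
    exact Finset.prod_congr rfl fun i _ => (hPR i).symm
  rw [hfin] at hmain
  obtain ⟨u, hu⟩ := hass
  have hco := coeff_le_of_cls hmain n
  rw [← hu] at hco
  obtain ⟨r, hr, hr2⟩ := Polynomial.isUnit_iff.1 u.isUnit
  rw [← hr2, coeff_mul_C, abs_mul] at hco
  have hr3 : |r| = 1 := Int.isUnit_iff_abs_eq.1 hr
  rwa [hr3, mul_one] at hco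

end Pool.Agent.J6H90.Height
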